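import Pool.Agent.X261.EC.Glob

/-!
The order of vanishing modulo two of the `L`-functions of an elliptic curve over a function field and
of all its quadratic twists, and an upper bound with explicit local terms.
-/

set_option autoImplicit false
set_option maxHeartbeats 1000000

open Polynomial Pool.Agent.W343.BSD Pool.Agent.W313.Gr Pool.Agent.X261.EC

namespace Pool.Agent.Results.MP_ae0bd0_nt.FunctionFieldCurves

/-- The `L`-function of the quadratic twist `E_D : y ^ 2 = x ^ 3 + D ^ 2 a x + D ^ 3 b` of
`E : y ^ 2 = x ^ 3 + a x + b` is `G / H`, and `H` is not zero modulo two. -/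
def IsTwistL (k : Type) {K : Type} [Field k] [Field K] [Algebra k K] (a b D : K) (G H : ℤ[X]) :
    Prop :=
  H.map (Int.castRingHom (ZMod 2)) ≠ 0 ∧
    S.Lfun k (D ^ 2 * a) (D ^ 3 * b) * (H : PowerSeries ℤ) = (G : PowerSeries ℤ)

/-- Let `K` be the function field of a curve over the finite field `k` with `q` elements, of
characteristic at least `5`, and `E : y ^ 2 = x ^ 3 + a x + b` an elliptic curve over `K`. Let
`K[x] / (x ^ 3 + a x + b)` be the product of the fields `L i`. Then for every quadratic twist `E_D` of
`E`, with `L(T, E_D) = G / H`: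
(1) the multiplicity `muTwo` of the root `1` modulo two of `G` is that of `H` plus `twoOrder`, given
by the zeta functions of `K` and of the `L i` and by the bad places of `E_D`;
(2) if `G = A G'`, then the multiplicity for `A` is at most
`curveTerm + ∑ localTerm_v(E_D) twoPart (deg v)` plus that of `H`, where `curveTerm` does not depend
on `D`;
(3) in particular this holds for the order `m` of vanishing at `T = 1 / q`, that is at `s = 1`;
(4) the sum of the local terms is at most `∑ twistTerm_v(D) twoPart (deg v)`, where only the bad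
places of `E` and the places `v` with `v(D)` odd at which the reduction of `E` has a point of order
two are counted, with `twistTerm = 2`.
If the class numbers of the `L i` are odd, `curveTerm` is at most `2` minus twice the number of the
`L i`, so it is not positive.
With `A` the product of the factors `1 - ζ q T` for the roots of unity `ζ` whose order is a power of
two, (2) bounds the order at `s = 1` of the `L`-functions of `E_D` over all constant extensions of
`K` of degree a power of two. By Tate's inequality the ranks of `E_D` over all these fields are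
bounded by the same number, and if it is `0`, the conjecture holds for `E_D` over these fields. By
(4) there is a common bound for all `D` whose valuation is even at all places of good reduction of
`E` at which the reduction has a point of order two. -/
theorem result (k K : Type) [Field k] [Finite k] [Field K] [Algebra k K] (h6 : (6 : k) ≠ 0)
    (hK : IsCurveField k K) (a b : K) (hE : 4 * a ^ 3 + 27 * b ^ 2 ≠ 0) (ι : Type) [Fintype ι]
    (L : ι → Type) [∀ i, Field (L i)] [∀ i, Algebra k (L i)] [∀ i, Algebra K (L i)]
    [∀ i, IsScalarTower k K (L i)] (θ : ∀ i, L i) (hθ : IsTwoDivision a b θ) :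
    ∃ (P : ℤ[X]) (PL : ι → ℤ[X]), IsNumerator k K P ∧ (∀ i, IsNumerator k (L i) (PL i)) ∧
      ((∀ i, Odd (S.classNumber k (L i))) → curveTerm k L P PL ≤ 2 - 2 * Fintype.card ι) ∧
      ∀ D : K, D ≠ 0 →
        (∀ G H : ℤ[X], IsTwistL k a b D G H →
          (muTwo G : ℤ) = muTwo H + twoOrder k (D ^ 2 * a) (D ^ 3 * b) L P PL) ∧
        (∀ A G H : ℤ[X], IsTwistL k a b D (A * G) H →
          (muTwo A : ℤ) ≤ curveTerm k L P PL +
            (∑ᶠ v : FF.Place k K, S.localTerm v (D ^ 2 * a) (D ^ 3 * b) * twoPart (S.deg v) : ℕ) +
            muTwo H) ∧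
        (∀ (m : ℕ) (G H : ℤ[X]), IsTwistL k a b D ((1 - C (Nat.card k : ℤ) * X) ^ m * G) H →
          (m : ℤ) ≤ curveTerm k L P PL +
            (∑ᶠ v : FF.Place k K, S.localTerm v (D ^ 2 * a) (D ^ 3 * b) * twoPart (S.deg v) : ℕ) +
            muTwo H) ∧
        ∑ᶠ v : FF.Place k K, S.localTerm v (D ^ 2 * a) (D ^ 3 * b) * twoPart (S.deg v) ≤
          ∑ᶠ v : FF.Place k K, twistTerm v a b D * twoPart (S.deg v) := by
  have hFF : FF.IsFF k K := ⟨hK.essFiniteType, hK.trdeg_eq_one⟩
  have hc := Pool.Agent.W313.Gr.constDeg_eq_one hK.algClosed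
  obtain ⟨P, hP, hP1⟩ := exists_num_rel k K
  have hF := isFamily_of_prod hE hθ.1 hθ.2
  have hfd := hF.fd
  have hFFL : ∀ i, FF.IsFF k (L i) := fun i => isFF_of_finite (K := K)
  choose PL hPL hPL1 using fun i => exists_num_rel k (L i)
  have hnum : ∀ i, IsNumerator k (L i) (PL i) := fun i =>
    ⟨(S.isZetaNum_iff _).2 (hPL i), (hPL1 i).trans (by rw [S.classNumber_eq])⟩
  refine ⟨P, PL, ⟨(S.isZetaNum_iff P).2 hP, hP1.trans (by rw [S.classNumber_eq])⟩, hnum,
    fun hodd => curveTerm_odd (fun i => (hnum i).2) hodd, fun D hD => ⟨fun G H h => ?_,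
    fun A G H h => bound_twist h6 hD hE hF hP hc hPL h.1 h.2, fun m G H h => ?_, sum_le hE hD⟩⟩
  · exact (exact_order h6 (disc_twist_ne hD hE) (twist_family hF hD) hP hc hPL h.1 h.2).2
  · have h1 := bound_twist h6 hD hE hF hP hc hPL h.1 h.2
    rwa [mu_pow_q h6] at h1

end Pool.Agent.Results.MP_ae0bd0_nt.FunctionFieldCurves
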