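import Pool.Agent.X261.TW.Ex
import Pool.Agent.X261.TW.Rank

/-!
The Mordell-Weil groups modulo two, the Selmer groups for two and the order of vanishing at `s = 1`
for the elliptic curves `P(t) y ^ 2 = f(x) - t` over `k(t)`, where `P = f(c(t)) - t` is a prime.
-/

set_option autoImplicit false
set_option maxHeartbeats 1000000

open Polynomial
open scoped Classical

namespace Pool.Agent.Results.MP_ae0bd0_nt.FunctionFieldTwists

/-- The closed points of the affine line over the field `F`: monic irreducible polynomials. -/
abbrev ClosedPt (F : Type) [Field F] : Type := {P : F[X] // P.Monic ∧ Irreducible P}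

section generic

variable {F : Type} [Field F]

open Classical in
/-- The quadratic character of the field `F[x] / (Q)` at the class of `h`. -/
noncomputable def quadChar (h Q : F[X]) : ℤ :=
  if Q ∣ h then 0 else if ∃ s : F[X], Q ∣ h - s ^ 2 then 1 else -1

/-- The degree of the closed point `Q` of the line over a field `F` of degree `d`. -/
noncomputable def ptDegree (d : ℕ) (Q : ClosedPt F) : ℕ := d * Q.1.natDegree

/-- The Euler factor `1 - χ T ^ n`, where `χ` is the value of the quadratic character of the residue
field of `Q` at `h`, and `n` is the degree of `Q`. -/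
noncomputable def ptFactor (h : F[X]) (d : ℕ) (Q : ClosedPt F) : PowerSeries ℤ :=
  1 - PowerSeries.C (quadChar h Q.1) * PowerSeries.X ^ ptDegree d Q

end generic

/-- The Euler product: its coefficient of index `n` is that of the product of the factors of degree
at most `n`. -/
noncomputable def eulerProduct {ι : Type} (d : ι → ℕ) (f : ι → PowerSeries ℤ) : PowerSeries ℤ :=
  PowerSeries.mk fun n => PowerSeries.coeff n (∏ᶠ (i : ι) (_ : d i ≤ n), f i)

section defs

variable {k : Type} [Field k]

/-- The residue field of the closed point `P` of the `t`-line. -/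
def Res (P : ClosedPt k) : Type := AdjoinRoot P.1

noncomputable instance resField (P : ClosedPt k) : Field (Res P) :=
  @AdjoinRoot.instField k _ P.1 ⟨P.2.2⟩

/-- The value at `P` of a polynomial in `t`. -/
noncomputable def value (P : ClosedPt k) (g : k[X]) : Res P := AdjoinRoot.mk P.1 g

/-- The inclusion of the constants in the residue field. -/
noncomputable def constants (P : ClosedPt k) : k →+* Res P := AdjoinRoot.of P.1

/-- The polynomial `D(t) (f(x) - t)` in `x` over the residue field of the closed point `P`. -/
noncomputable def fibre (f D : k[X]) (P : ClosedPt k) : (Res P)[X] :=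
  C (value P D) * (f.map (constants P) - C (value P X))

/-- The closed points of the `(t, x)`-plane with `D(t) ≠ 0`: a closed point of the `t`-line and a
closed point of the `x`-line over its residue field. -/
structure PlanePt (D : k[X]) : Type where
  place : ClosedPt k
  ndvd : ¬ place.1 ∣ D
  point : ClosedPt (Res place)

/-- The degree of a closed point of the plane. -/
noncomputable def PlanePt.deg {D : k[X]} (z : PlanePt D) : ℕ :=
  ptDegree z.place.1.natDegree z.point

/-- The Euler factor of a closed point of the plane. -/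
noncomputable def PlanePt.factor {D : k[X]} (f : k[X]) (z : PlanePt D) : PowerSeries ℤ :=
  ptFactor (fibre f D z.place) z.place.1.natDegree z.point

/-- The `L`-function in the variable `T = q ^ (-s)` of the elliptic curve `D(t) y ^ 2 = f(x) - t`
over `k(t)`, for a cubic polynomial `f` and a squarefree polynomial `D`: the product of
`1 - χ(z) T ^ deg z` over the closed points `z` of the plane with `D(t) ≠ 0`, where `χ(z)` is the
quadratic character of the residue field of `z` at `D(t) (f(x) - t)`. -/
noncomputable def Lfun (f D : k[X]) : PowerSeries ℤ :=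
  eulerProduct (fun z : PlanePt D => z.deg) (fun z => z.factor f)

/-- `L(T) = (1 - q T) ^ m G(T)` with an integral polynomial `G`: the function vanishes to order at
least `m` at `s = 1`. -/
def VanishesTo (f D : k[X]) (m : ℕ) : Prop :=
  ∃ G : ℤ[X], Lfun f D = (((1 - C (Nat.card k : ℤ) * X) ^ m * G : ℤ[X]) : PowerSeries ℤ)

/-- The greatest power of two dividing `n`. -/
def twoPart (n : ℕ) : ℕ := 2 ^ padicValNat 2 n

/-- The polynomial `P = f(c(t)) - t`. -/
noncomputable def primeOf (f c : k[X]) : k[X] := f.comp c - X

/-- The polynomial `(f(u) - f(x)) / (u - x)` for `u = c(f(x))` and a monic cubic polynomial `f`. The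
product with `c(f(x)) - x` is `P(f(x))`, for `P = f(c(t)) - t`. -/
noncomputable def cofactorOf (f c : k[X]) : k[X] :=
  c.comp f ^ 2 + c.comp f * X + X ^ 2 + C (f.coeff 2) * (c.comp f + X) + C (f.coeff 1)

/-- The characteristic of `k` is not two or three, `f` is a monic cubic polynomial and it is not of the
form `(x - a) ^ 3 + b`; the polynomials `P(t) = f(c(t)) - t` and `P(f(x)) / (c(f(x)) - x)` are
irreducible. -/
structure IsData (f c : k[X]) : Prop where
  two_ne : (2 : k) ≠ 0
  three_ne : (3 : k) ≠ 0
  monic : f.Monic
  degree : f.natDegree = 3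
  generic : f.coeff 2 ^ 2 ≠ 3 * f.coeff 1
  prime : Irreducible (primeOf f c)
  cofactor : Irreducible (cofactorOf f c)

/-- The elliptic curve `D(t) y ^ 2 = f(x) - t` over `K = k(t)`, with the Weierstrass equation
`Y ^ 2 = X ^ 3 + f₂ D X ^ 2 + f₁ D ^ 2 X + (f₀ - t) D ^ 3`, where `X = D x`, `Y = D ^ 2 y`. -/
noncomputable def twist (K : Type) [Field K] [Algebra k[X] K] (f D : k[X]) :
    WeierstrassCurve K :=
  ⟨0, algebraMap k[X] K (C (f.coeff 2)) * algebraMap k[X] K D, 0,
    algebraMap k[X] K (C (f.coeff 1)) * algebraMap k[X] K D ^ 2,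
    algebraMap k[X] K (C (f.coeff 0) - X) * algebraMap k[X] K D ^ 3⟩

/-- The rational points over `K = k(t)` of `D(t) y ^ 2 = f(x) - t`. -/
abbrev Points (K : Type) [Field K] [Algebra k[X] K] (f D : k[X]) : Type :=
  WeierstrassCurve.Affine.Point (twist K f D)

/-- The group has no element of order two, and it has at most two classes modulo two. If it is finitely
generated then its rank is at most one. -/
structure IsAtMostOne (A : Type) [AddCommGroup A] : Prop where
  no_two : ∀ R : A, R + R = 0 → R = 0
  index : ∀ S T : A, (¬ ∃ R, R + R = S) → (¬ ∃ R, R + R = T) → ∃ R, R + R = S + T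
  rank : Module.Finite ℤ A → Module.finrank ℤ A ≤ 1

/-- The element `q` is not divisible by two, it has infinite order, and every element is `2 r` or
`q + 2 r`. If the group is finitely generated then its rank is one. -/
structure IsExactlyOne (A : Type) [AddCommGroup A] (q : A) : Prop where
  not_two : ∀ R : A, R + R ≠ q
  infinite : ∀ n : ℤ, n • q = 0 → n = 0
  all : ∀ T : A, ∃ R : A, T = R + R ∨ T = q + (R + R)
  rank : Module.Finite ℤ A → Module.finrank ℤ A = 1

/-- The exponent of the prime `Q` in `g` is even. -/
def HasEvenExponent (Q g : k[X]) : Prop := ∃ n : ℕ, Q ^ (2 * n) ∣ g ∧ ¬ Q ^ (2 * n + 1) ∣ g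

/-- `K = k(t)` is embedded in `L = k(x)` by `t = f(x)`. -/
def IsCover (K L : Type) [Field K] [Field L] [Algebra k[X] K] [Algebra k[X] L] [Algebra K L]
    (f : k[X]) : Prop :=
  ∀ g : k[X], algebraMap K L (algebraMap k[X] K g) = algebraMap k[X] L (g.comp f)

/-- The element `g` of `k[x]` has an even exponent at every prime of `k[x]` which does not divide
`P(f(x))`, and its norm from `L = k(x)` to `K = k(t)` is a square. -/
structure IsEvenClass (K L : Type) [Field K] [Field L] [Algebra k[X] L] [Algebra K L]
    (f P g : k[X]) : Prop where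
  ne_zero : g ≠ 0
  even : ∀ Q : k[X], Irreducible Q → ¬ Q ∣ P.comp f → HasEvenExponent Q g
  norm : IsSquare (Algebra.norm K (algebraMap k[X] L g))

/-- The point `(X, Y) = (P c, P ^ 2)` of the Weierstrass equation of `P(t) y ^ 2 = f(x) - t`, that is the
point `(x, y) = (c, 1)`, generates the group of the rational points modulo two. -/
def IsGeneratedByPoint (K : Type) [Field K] [Algebra k[X] K] (f c : k[X]) : Prop :=
  ∃ h : (twist K f (primeOf f c)).toAffine.Nonsingular
      (algebraMap k[X] K (primeOf f c) * algebraMap k[X] K c)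
      (algebraMap k[X] K (primeOf f c) ^ 2),
    IsExactlyOne (Points K f (primeOf f c)) (WeierstrassCurve.Affine.Point.some _ _ h)

/-- The polynomials `g` over `k` with the properties of `IsEvenClass` are, up to squares, `1` and the
cofactor, and the cofactor is not a square. -/
def EvenClassesAre (K L : Type) [Field K] [Field L] [Algebra k[X] L] [Algebra K L]
    (f c : k[X]) : Prop :=
  (∀ g : k[X], IsEvenClass K L f (primeOf f c) g →
    ∃ H : k[X], H ≠ 0 ∧ (g = H ^ 2 ∨ g = cofactorOf f c * H ^ 2)) ∧
  IsEvenClass K L f (primeOf f c) (cofactorOf f c) ∧ ∀ H : k[X], cofactorOf f c ≠ H ^ 2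

/-- The element `x - D θ` of `L = k(x)`, where `θ` is the variable of `k(x)`. -/
noncomputable def classAt {K : Type} (L : Type) [Field K] [Field L] [Algebra k[X] K]
    [Algebra k[X] L] [Algebra K L] (D : k[X]) (x : K) : L :=
  algebraMap K L x - algebraMap K L (algebraMap k[X] K D) * algebraMap k[X] L X

/-- The element `X - u P θ` of `L = k(x)` at a rational point `(X, Y)` of the Weierstrass equation of
`u P(t) y ^ 2 = f(x) - t` is `g / H ^ 2`, where `g` has the properties of `IsEvenClass`; and at the point
`(c, 1)` of `P(t) y ^ 2 = f(x) - t` it is the cofactor times a square. -/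
def PointClasses (K L : Type) [Field K] [Field L] [Algebra k[X] K] [Algebra k[X] L] [Algebra K L]
    (f c : k[X]) : Prop :=
  (∀ (u : k) (x y : K), u ≠ 0 → (twist K f (C u * primeOf f c)).toAffine.Nonsingular x y →
    ∃ g H : k[X], IsEvenClass K L f (primeOf f c) g ∧ H ≠ 0 ∧
      classAt L (C u * primeOf f c) x * algebraMap k[X] L H ^ 2 = algebraMap k[X] L g) ∧
  classAt L (primeOf f c) (algebraMap k[X] K (primeOf f c) * algebraMap k[X] K c) =
    algebraMap k[X] L (cofactorOf f c * (c.comp f - X) ^ 2)

/-- The orders of vanishing at `s = 1` of the `L`-functions of `u P(t) y ^ 2 = f(x) - t`, for the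
`u ≠ 0` in `k`, are at most `r`. -/
def OrdersAtMost (f c : k[X]) (r : ℕ) : Prop :=
  ∀ (u : k) (m : ℕ), u ≠ 0 → VanishesTo f (C u * primeOf f c) m → m ≤ r

/-- the polynomial `x ^ 3 + x` -/
noncomputable def exampleF (k : Type) [Field k] : k[X] := X ^ 3 + X

/-- the polynomial `t ^ 3 + 4 t + 1` -/
noncomputable def exampleC (k : Type) [Field k] : k[X] := X ^ 3 + 4 * X + 1

/-- the equivalence of the two descriptions of the points of the plane -/
noncomputable def planeEquiv (D : k[X]) :
    (Σ P : {P : Pool.Agent.W313.Hyp.MI k // ¬ P.1 ∣ D},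
      Pool.Agent.W313.Hyp.MI (Pool.Agent.TH943.HJ.RF P.1)) ≃ PlanePt D where
  toFun z := ⟨z.1.1, z.1.2, z.2⟩
  invFun z := ⟨⟨z.place, z.ndvd⟩, z.point⟩
  left_inv _ := rfl
  right_inv _ := rfl

theorem Lfun_eq (f D : k[X]) : Lfun f D = Pool.Agent.TH943.HJ.LF f D := by
  unfold Lfun Pool.Agent.TH943.HJ.LF eulerProduct Pool.Agent.W343.BSD.eulerProd
  ext n
  rw [PowerSeries.coeff_mk, PowerSeries.coeff_mk]
  congr 1
  exact (finprod_comp_equiv (planeEquiv D)
    (f := fun z : PlanePt D => ∏ᶠ (_ : z.deg ≤ n), z.factor f)).symm

end defs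

open Pool.Agent.X261.TW

section even

variable {k : Type} [Field k]

theorem even_iff {Q g : k[X]} (hQ : Irreducible Q) (hg : g ≠ 0) :
    HasEvenExponent Q g ↔ Even (multiplicity Q g) := by
  constructor
  · rintro ⟨n, h1, h2⟩
    rw [multiplicity_eq_of_dvd_of_not_dvd h1 h2]
    exact even_two_mul n
  · rintro ⟨n, hn⟩
    refine ⟨n, pow_dvd_of_le_multiplicity (by omega), ?_⟩
    exact (fin_mult hQ hg).not_pow_dvd_of_multiplicity_lt (by omega)

end even

section points

variable {k K : Type} [Field k] [Field K] [Algebra k[X] K] [IsFractionRing k[X] K] {f c : k[X]}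

theorem atMost (h : IsData f c) {u : k} (hu : u ≠ 0) :
    IsAtMostOne (Points K f (C u * primeOf f c)) := by
  obtain ⟨hA, hc⟩ := exists_cover (f := f) K h.degree
  have hD : C u * PP f c ≠ 0 := mul_ne_zero (C_ne_zero.2 hu) h.prime.ne_zero
  have hsh := isShort (K := K) (L := Cov k) hc h.monic h.degree h.two_ne hD
  have h1 := two_dvd_or (K := K) (L := Cov k) hc h.monic h.degree h.two_ne h.prime h.cofactor hu
  exact ⟨fun _ hR => hsh.no_two hR, h1, fun hfin => finrank_le_one h1 hfin⟩

theorem exactlyOne (h : IsData f c) : ∃ hns : (twist K f (primeOf f c)).toAffine.Nonsingular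
      (algebraMap k[X] K (primeOf f c) * algebraMap k[X] K c)
      (algebraMap k[X] K (primeOf f c) ^ 2),
    IsExactlyOne (Points K f (primeOf f c)) (WeierstrassCurve.Affine.Point.some _ _ hns) := by
  obtain ⟨hA, hc⟩ := exists_cover (f := f) K h.degree
  have h0 : IsAtMostOne (Points K f (primeOf f c)) := by
    have h1 := atMost (K := K) h (one_ne_zero (α := k))
    rwa [C_1, one_mul] at h1
  have hsh := isShort (K := K) (L := Cov k) hc h.monic h.degree h.two_ne h.prime.ne_zero
  have hns := hsh.nonsingular.2 (point_eq (K := K) (c := c) h.monic h.degree)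
  have h2 := point_not_two (K := K) (L := Cov k) hc h.monic h.degree h.two_ne h.prime h.cofactor hns
  have h3 : ∀ n : ℤ, n • (WeierstrassCurve.Affine.Point.some _ _ hns :
      Points K f (primeOf f c)) = 0 → n = 0 :=
    fun n hn => infinite_order h0.no_two h2 hn
  exact ⟨hns, h2, h3, all_of h0.index h2,
    fun hfin => le_antisymm (h0.rank hfin) (finrank_pos h3 hfin)⟩

end points

section classes

variable {k K L : Type} [Field k] [Field K] [Algebra k[X] K] [IsFractionRing k[X] K]
  [Field L] [Algebra k[X] L] [IsFractionRing k[X] L] [Algebra K L] {f c : k[X]}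

theorem classes (h : IsData f c) (hc : IsCover K L f) {g : k[X]}
    (hg : IsEvenClass K L f (primeOf f c) g) :
    ∃ H : k[X], H ≠ 0 ∧ (g = H ^ 2 ∨ g = cofactorOf f c * H ^ 2) := by
  obtain ⟨r, hr⟩ := hg.norm
  refine group (K := K) (L := L) hc h.monic h.degree h.prime h.cofactor hg.ne_zero
    (evenOff_of hg.ne_zero fun Q hQ hQD => ?_) (r := r) (by rw [hr]; ring)
  rw [← P1_mul_P2 h.monic h.degree] at hQD
  exact (even_iff hQ hg.ne_zero).1 (hg.even Q hQ hQD)

theorem point_isEven (h : IsData f c) (hc : IsCover K L f) {u : k} (hu : u ≠ 0) {x y : K}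
    (hns : (twist K f (C u * primeOf f c)).toAffine.Nonsingular x y) :
    ∃ g H : k[X], IsEvenClass K L f (primeOf f c) g ∧ H ≠ 0 ∧
      (algebraMap K L x - algebraMap K L (algebraMap k[X] K (C u * primeOf f c)) *
        algebraMap k[X] L X) * algebraMap k[X] L H ^ 2 = algebraMap k[X] L g := by
  have hD : C u * PP f c ≠ 0 := mul_ne_zero (C_ne_zero.2 hu) h.prime.ne_zero
  have hsh := isShort (K := K) (L := L) hc h.monic h.degree h.two_ne hD
  obtain ⟨g, H, hg, hH, hev, hgH, r, hr⟩ := point_class (K := K) (L := L) hc h.monic h.degree hD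
    (hsh.nonsingular.1 hns)
  rw [mul_comp, C_comp] at hev
  have hev' := evenOff_unit hu hev
  exact ⟨g, H, ⟨hg, fun Q hQ hQD => (even_iff hQ hg).2 (hev'.even hg hQ hQD),
    ⟨r, by rw [hr]; ring⟩⟩, hH, hgH⟩

theorem cofactor_isEven (h : IsData f c) (hc : IsCover K L f) :
    IsEvenClass K L f (primeOf f c) (cofactorOf f c) ∧ ∀ H : k[X], cofactorOf f c ≠ H ^ 2 := by
  have h2 : Irreducible (P2 f c) := h.cofactor
  refine ⟨⟨h2.ne_zero, fun Q hQ hQD => ⟨0, ?_, ?_⟩, ⟨algebraMap k[X] K (PP f c), ?_⟩⟩,
    fun H hH => ?_⟩
  · rw [mul_zero, pow_zero]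
    exact one_dvd _
  · rw [mul_zero, zero_add, pow_one]
    intro h3
    apply hQD
    change Q ∣ (PP f c).comp f
    rw [P1_mul_P2 h.monic h.degree]
    exact h3.mul_left _
  · rw [← pow_two]
    exact norm_P2 hc h.monic h.degree h.prime
  · refine irr_not_sq h2 (one_ne_zero (α := k[X])) (one_ne_zero (α := k)) (a := H) ?_
    rw [C_1, one_mul, one_pow, mul_one]
    exact hH

/-- the class of the point `(c, 1)` -/
theorem point_cofactor (h : IsData f c) (hc : IsCover K L f) :
    algebraMap K L (algebraMap k[X] K (primeOf f c) * algebraMap k[X] K c) -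
        algebraMap K L (algebraMap k[X] K (primeOf f c)) * algebraMap k[X] L X =
      algebraMap k[X] L (cofactorOf f c * (c.comp f - X) ^ 2) := by
  change algebraMap K L (algebraMap k[X] K (PP f c) * algebraMap k[X] K c) -
        algebraMap K L (algebraMap k[X] K (PP f c)) * algebraMap k[X] L X =
      algebraMap k[X] L (P2 f c * (c.comp f - X) ^ 2)
  rw [map_mul, hc, hc, P1_mul_P2 h.monic h.degree]
  unfold P1
  simp only [map_mul, map_sub, map_pow]
  ring

end classes

section extension

variable {k k' : Type} [Field k] [Finite k] [Field k'] [Finite k'] [Algebra k k'] {f c : k[X]}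

theorem ext_isData (h : IsData f c)
    (hr : (Module.finrank k k').Coprime (2 * (primeOf f c).natDegree)) :
    IsData (f.map (algebraMap k k')) (c.map (algebraMap k k')) := by
  have hinj := (algebraMap k k').injective
  have hcp := hr.coprime_dvd_right (Dvd.intro_left 2 rfl : (primeOf f c).natDegree ∣ _)
  refine ⟨?_, ?_, h.monic.map _, ?_, ?_, ?_, ?_⟩
  · intro h0
    apply h.two_ne
    apply hinj
    rw [map_ofNat, map_zero]
    exact h0
  · intro h0
    apply h.three_ne
    apply hinj
    rw [map_ofNat, map_zero]
    exact h0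
  · rw [h.monic.natDegree_map, h.degree]
  · rw [coeff_map, coeff_map]
    intro h0
    apply h.generic
    apply hinj
    rw [map_pow, map_mul, map_ofNat]
    exact h0
  · change Irreducible (PP _ _)
    rw [← PP_map]
    exact irr_ext h.prime hcp
  · change Irreducible (P2 _ _)
    rw [← P2_map]
    refine irr_ext h.cofactor ?_
    rw [natDegree_P2 h.monic h.degree h.prime]
    exact hr

end extension

theorem ex_isData (k : Type) [Field k] [Finite k] [CharP k 5] {m : ℕ} (hm : Nat.card k = 5 ^ m)
    (h6 : m.Coprime 6) : IsData (X ^ 3 + X : k[X]) (X ^ 3 + 4 * X + 1) ∧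
      (primeOf (X ^ 3 + X : k[X]) (X ^ 3 + 4 * X + 1)).natDegree = 9 := by
  have h := Ex.irr k hm h6
  have hco := Ex.fE_coeff k
  have hne : ∀ n : ℕ, ¬ 5 ∣ n → (n : k) ≠ 0 := fun n hn h0 => hn ((CharP.cast_eq_zero_iff k 5 n).1 h0)
  have h2 : (2 : k) ≠ 0 := by
    have := hne 2 (by norm_num)
    exact_mod_cast this
  have h3 : (3 : k) ≠ 0 := by
    have := hne 3 (by norm_num)
    exact_mod_cast this
  have hd1 := natDegree_PP (c := Ex.cE k) (Ex.fE_monic k) (Ex.fE_deg k)
  refine ⟨⟨h2, h3, Ex.fE_monic k, Ex.fE_deg k, ?_, h.1, h.2⟩, ?_⟩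
  · change (Ex.fE k).coeff 2 ^ 2 ≠ 3 * (Ex.fE k).coeff 1
    rw [hco.1, hco.2.1, mul_one, zero_pow two_ne_zero]
    exact h3.symm
  · change (PP (Ex.fE k) (Ex.cE k)).natDegree = 9
    unfold PP
    have h1 : ((Ex.fE k).comp (Ex.cE k)).natDegree = 9 := by
      rw [natDegree_comp, Ex.fE_deg, Ex.cE_deg]
    rw [natDegree_sub_eq_left_of_natDegree_lt (by rw [h1, natDegree_X]; norm_num), h1]

/-- **Prime twists of `y ^ 2 = f(x) - t` with Mordell-Weil group and Selmer group of rank one.**

Let `k` be a field of characteristic different from two and three, `f` a monic cubic polynomial which is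
not `(x - a) ^ 3 + b`, and `c` a polynomial over `k` such that `P = f(c(t)) - t` is irreducible. Then
`E_P : P(t) y ^ 2 = f(x) - t` has the point `(c, 1)` over `K = k(t)`. In `k(x)`, where `t = f(x)`, the
polynomial `P(f(x))` has the factor `c(f(x)) - x`, which is also irreducible; suppose that the cofactor
is irreducible. This is the case if and only if `P` has two prime factors in `k(x)`.

1. For all `u ≠ 0` in `k` the group `E_{uP}(K)` has no element of order two, and `E_{uP}(K)` modulo two
has at most two elements. For `u = 1` it has exactly two elements, the classes of `0` and of the point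
`(c, 1)` (with `X = P c`, `Y = P ^ 2` in the Weierstrass equation), and this point has infinite order.
For a finite field `k` (or a finitely generated field) these groups are finitely generated, and hence
`E_P(K)` has rank one and `E_{uP}(K)` has rank at most one.

2. Let `K` be embedded in `L = k(x)` by `t = f(x)`. The elements of `L ^ * / L ^ {* 2}` with a square norm
in `K` which have even valuations at all the places not dividing `P` or `∞` form a group of order two,
which is generated by the cofactor; it contains the classes of `X - u P x` at the points of `E_{uP}(K)`, and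
the class of the point `(c, 1)` is the cofactor.

3. If `k` is finite, the order of vanishing of `L(E_{uP}, s)` at `s = 1` is at most `2 * 2 ^ v(deg P)`, where
`v` is the `2`-adic valuation.

4. If `k` is finite, all the assumptions hold also over the extensions `k'` of `k` of degree prime to
`2 deg P`.

5. They hold for `f = x ^ 3 + x` and `c = t ^ 3 + 4 t + 1` over all fields with `5 ^ m`
elements, `m` prime to `6`. Here `P` has the degree `9`, and the order of vanishing is at most two.

The local conditions which define the Selmer group for two, contained in `L ^ * / L ^ {* 2}`, imply the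
conditions of (2), by the same computation over the completions of `K` at the places not dividing `P` or
`∞`. So the Selmer group of `E_P` for two is `E_P(K)` modulo two, of order two, and the Tate-Shafarevich
group of `E_P` has no element of order two. By the theorems of Tate and Kato-Trihan the order of vanishing
of `L(E_P, s)` at `s = 1` is then equal to the rank, that is to one: the conjecture is true for `E_P` over
`k(t)`, and by (4) over `k'(t)` for all the extensions `k'` of degree prime to `2 deg P`. -/
theorem result :
    (∀ (k K : Type) [Field k] [Field K] [Algebra k[X] K] [IsFractionRing k[X] K] (f c : k[X]),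
      IsData f c → IsGeneratedByPoint K f c ∧
        ∀ u : k, u ≠ 0 → IsAtMostOne (Points K f (C u * primeOf f c))) ∧
    (∀ (k K L : Type) [Field k] [Field K] [Algebra k[X] K] [IsFractionRing k[X] K] [Field L]
      [Algebra k[X] L] [IsFractionRing k[X] L] [Algebra K L] (f c : k[X]), IsData f c →
      IsCover K L f → EvenClassesAre K L f c ∧ PointClasses K L f c) ∧
    (∀ (k : Type) [Field k] [Finite k] (f c : k[X]), IsData f c →
      OrdersAtMost f c (2 * twoPart (primeOf f c).natDegree) ∧
      ∀ (k' : Type) [Field k'] [Finite k'] [Algebra k k'],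
        (Module.finrank k k').Coprime (2 * (primeOf f c).natDegree) →
          IsData (f.map (algebraMap k k')) (c.map (algebraMap k k'))) ∧
    (∀ (k : Type) [Field k] [Finite k] [CharP k 5] (m : ℕ), Nat.card k = 5 ^ m → m.Coprime 6 →
      IsData (exampleF k) (exampleC k) ∧ (primeOf (exampleF k) (exampleC k)).natDegree = 9 ∧
        OrdersAtMost (exampleF k) (exampleC k) 2) := by
  have hord : ∀ (k : Type) [Field k] [Finite k] (f c : k[X]), IsData f c →
      OrdersAtMost f c (2 * twoPart (primeOf f c).natDegree) := by
    intro k _ _ f c h u m hu hm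
    obtain ⟨G, hG⟩ := hm
    rw [Lfun_eq] at hG
    exact order_le h.two_ne h.monic h.degree h.prime h.cofactor hu m G hG
  refine ⟨?_, ?_, ?_, ?_⟩
  · intro k K _ _ _ _ f c h
    exact ⟨exactlyOne h, fun u hu => atMost h hu⟩
  · intro k K L _ _ _ _ _ _ _ _ f c h hc
    exact ⟨⟨fun g hg => classes h hc hg, cofactor_isEven h hc⟩,
      fun u x y hu hns => point_isEven h hc hu hns, point_cofactor h hc⟩
  · intro k _ _ f c h
    exact ⟨hord k f c h, fun k' _ _ _ hr => ext_isData h hr⟩
  · intro k _ _ _ m hm h6
    obtain ⟨h1, h2⟩ := ex_isData k hm h6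
    refine ⟨h1, h2, fun u n hu hn => ?_⟩
    have h3 := hord k _ _ h1 u n hu hn
    rw [h2] at h3
    have h4 : twoPart 9 = 1 := by
      unfold twoPart
      rw [padicValNat.eq_zero_of_not_dvd (by norm_num), pow_zero]
    rw [h4, mul_one] at h3
    exact h3

end Pool.Agent.Results.MP_ae0bd0_nt.FunctionFieldTwists
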