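import Pool.Agent.H313.GE.Tow

/-!
# Geometric orders of vanishing over all `ℓ`-group extensions of constant extensions
-/

set_option autoImplicit false
set_option linter.all false
set_option maxHeartbeats 4000000

open Polynomial FF Module Pool.Agent.W343.BSD

namespace Pool.Agent.Results.MP_ae0bd0_nt.GeometricOrdersLGroups

/-- The set contains a positive proportion of the primes: there is a constant `c > 0` such that for all
large `N` at least `c π(N)` of the primes up to `N` are in the set. -/
def PositiveDensity (A : Set ℕ) : Prop :=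
  ∃ c : ℝ, 0 < c ∧ ∃ N₀ : ℕ, ∀ N : ℕ, N₀ ≤ N →
    c * Nat.primeCounting N ≤ Set.ncard {p : ℕ | p ≤ N ∧ p.Prime ∧ p ∈ A}

section defs

/-- `Λ(T) = ∏ P_v(T ^ (deg v))⁻¹`, the product over the places `v` of `K` over `k`. -/
def IsProduct (k : Type) {K : Type} [Field k] [Field K] [Algebra k K] (P : Place k K → ℤ[X])
    (Λ : PowerSeries ℤ) : Prop :=
  Λ * eulerProd (fun v : Place k K => S.deg v)
    (fun v => ((expand ℤ (S.deg v) (P v) : ℤ[X]) : PowerSeries ℤ)) = 1

/-- `P = ∏ (1 - α_i T)` and `Q = ∏ (1 - α_i ^ f T)` for complex numbers `α_i`. -/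
def IsPower (f : ℕ) (P Q : ℤ[X]) : Prop :=
  ∃ (n : ℕ) (α : Fin n → ℂ), P.map (Int.castRingHom ℂ) = ∏ i, (1 - C (α i) * X) ∧
    Q.map (Int.castRingHom ℂ) = ∏ i, (1 - C (α i ^ f) * X)

/-- `x = ζ / q ^ b` for a root of unity `ζ`. -/
def IsUnitary (q b : ℕ) (x : ℂ) : Prop := ∃ n : ℕ, 0 < n ∧ ((q : ℂ) ^ b * x) ^ n = 1

open Classical in
/-- The number of the zeros `ζ / q ^ b` of `A`, for all roots of unity `ζ`, with multiplicities: for an
`L`-function the order of vanishing over a sufficiently large finite extension of the constants. -/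
noncomputable def geometricOrder (q b : ℕ) (A : ℤ[X]) : ℕ :=
  Multiset.card ((A.map (Int.castRingHom ℂ)).roots.filter (IsUnitary q b))

/-- The order of vanishing of `A` at `q ^ (-b)`. -/
noncomputable def order (q b : ℕ) (A : ℤ[X]) : ℕ :=
  (A.map (Int.castRingHom ℂ)).rootMultiplicity ((q : ℂ) ^ b)⁻¹

/-- The place `w` of `L` lies over the place `v` of `K`, with the ramification index `e`. The fields of
constants `k` and `k'` may be different. -/
def LiesOver {k K k' L : Type} [Field k] [Field K] [Algebra k K] [Field k'] [Field L]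
    [Algebra k' L] [Algebra K L] (w : Place k' L) (v : Place k K) (e : ℕ) : Prop :=
  0 < e ∧ ∀ f : K, w.ord (algebraMap K L f) = e * v.ord f

/-- `K'` is the constant extension of `K` with the field of constants `k'`, whose degree divides
`ℓ - 1` (for example `k' = k(μ_ℓ)`), and `L` is a Galois extension of `K'` of degree a power of `ℓ`, with
the field of constants `k''`, whose ramified places lie over elements of `T`. The `P''_w` are integral
polynomials with `P''_w(0) = 1` for the places `w` of `L`; for a place `w` over the place `v` of `K`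
outside `T` with residue degree `f`, the reciprocal zeros of `P''_w` are the `f`-th powers of those of
`P_v`. -/
structure IsTower {k K : Type} (k' K' k'' L : Type) [Field k] [Field K] [Algebra k K] [Field k']
    [Field K'] [Algebra k' K'] [Algebra k k'] [Algebra K K'] [Field k''] [Field L]
    [Algebra k'' L] [Algebra K' L] (ℓ : ℕ) (T : Finset (Place k K))
    (P : Place k K → ℤ[X]) (P'' : Place k'' L → ℤ[X]) : Prop where
  curve : IsCurveField k' K'
  constants : finrank K K' = finrank k k'
  degree : finrank k k' ∣ ℓ - 1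
  curveTop : IsCurveField k'' L
  galois : IsGalois K' L
  power : ∃ s : ℕ, finrank K' L = ℓ ^ s
  constant : ∀ w, (P'' w).coeff 0 = 1
  factor : ∀ (v : Place k K) (v' : Place k' K') (w : Place k'' L) (e e' f : ℕ), v ∉ T →
    LiesOver v' v e → LiesOver w v' e' → Nat.card (S.Res w) = Nat.card (S.Res v) ^ f →
    IsPower f (P v) (P'' w)
  ramification : ∀ (v' : Place k' K') (w : Place k'' L) (e : ℕ), LiesOver w v' e → e ≠ 1 →
    ∃ v ∈ T, ∃ e' : ℕ, LiesOver v' v e'

/-- `M` is the extension of `L` by the constants `κ`, and the reciprocal zeros of the `P₃_u` are the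
`f`-th powers of those of `P''_w`, for the places `u` of `M` over `w` with residue degree `f`. -/
structure IsConstantExtension {k'' L : Type} (κ M : Type) [Field k''] [Field L] [Algebra k'' L]
    [Field κ] [Field M] [Algebra κ M] [Algebra k'' κ] [Algebra L M]
    (P'' : Place k'' L → ℤ[X]) (P₃ : Place κ M → ℤ[X]) : Prop where
  curve : IsCurveField κ M
  constants : finrank L M = finrank k'' κ
  constant : ∀ u, (P₃ u).coeff 0 = 1
  factor : ∀ (w : Place k'' L) (u : Place κ M) (e f : ℕ), LiesOver u w e →
    Nat.card (S.Res u) = Nat.card (S.Res w) ^ f → IsPower f (P'' w) (P₃ u)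

end defs

section aux

theorem isUnitary_iff (q b : ℕ) (x : ℂ) : IsUnitary q b x ↔ H313.GE.IsUni (q ^ b) x := by
  unfold IsUnitary H313.GE.IsUni
  push_cast
  rfl

theorem geometricOrder_eq (q b : ℕ) (A : ℤ[X]) : geometricOrder q b A = H313.GE.geo (q ^ b) A := by
  classical
  unfold geometricOrder H313.GE.geo
  congr 1
  exact Multiset.filter_congr fun x _ => isUnitary_iff q b x

theorem im_pow {z : ℂ} (h : z.im = 0) (n : ℕ) : (z ^ n).im = 0 := by
  have h1 : z = (z.re : ℂ) := Complex.ext (by simp) (by simp [h])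
  rw [h1, ← Complex.ofReal_pow, Complex.ofReal_im]

end aux

/-- Let `K` be the function field of a curve over the field `k` with `q` elements, and `P_v` any
integral polynomials with `P_v(0) = 1` for the places `v` of `K`, with the product
`Λ(T) = ∏ P_v(T ^ (deg v))⁻¹` and `Λ V = U` for integral polynomials `U`, `V`, `V(0) = 1`. The main
example (`b = 1`) is an arbitrary abelian variety `A` over `K`, with the Euler factors
`P_v(T) = det (1 - Frob_v T)` on the invariants of inertia in `V_l(A)` and `Λ = L(A/K, T)`; another is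
the cohomology of degree `2 b - 1` of a smooth projective variety over `K`.

Let every zero `x` of `U` be either `ζ / q ^ b` for a root of unity `ζ`, or have no positive power which is a
real number. This always holds if `U` is pure of the absolute value `q ^ (-b)` (Deligne), as for an
abelian variety. Let `T` be a finite set of places `v` such that no zero of `P_v` has a positive
power which is real; for an abelian variety: the reduction at `v` has no multiplicative and no
supersingular part, for example good ordinary reduction, or purely additive reduction.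

Then there is a set `D` of primes `ℓ` of positive density, such that for all `ℓ ∈ D`, ALL constant extensions
`K'` of `K` of degree dividing `ℓ - 1` (as `K(μ_ℓ)`), and ALL finite Galois extensions `L` of `K'` of
degree a power of `ℓ` (of any group and genus), ramified only over `T`, with field of constants `k''`, the
following holds, if the Euler product `R` over `L` is a polynomial (as is `L(A/L, T)` if `A` has no
constant part over `L`). The Euler factors over `T` may be any integral polynomials.

(1) Let `g_L` be the number of the zeros `ζ / q'' ^ b` of `R` for all roots of unity `ζ`, with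
multiplicities. For ALL finite extensions `κ` of `k''` and `M = L κ` the product `R₃` over `M`
vanishes at `|κ| ^ (-b)` to an order at most `g_L`, and it has exactly `g_L` zeros `ζ / |κ| ^ b`.

(2) `[k'' : k'] g_L ≤ [L : K'] g_K`, where `g_K` is the number of the zeros `ζ / q ^ b` of `U`.

(3) If `g_K = 0`, then none of the functions `R₃` vanishes at any `ζ / |κ| ^ b`.

So for every abelian variety `A` over `K` whose `L`-function has no zero `ζ / q`, the conjecture of Birch
and Swinnerton-Dyer, `rank A(M) = ord L(A/M) = 0` (Tate's inequality), holds over all these fields `M`,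
with no bound for the field of constants; in general the rank of `A` over `L \bar k`, at most `g_L`, is
at most `g_K` times the geometric degree `[L \bar k : K \bar k]`. -/
theorem result (k K : Type) [Field k] [Finite k] [Field K] [Algebra k K] (hK : IsCurveField k K)
    (P : Place k K → ℤ[X]) (hP : ∀ v, (P v).coeff 0 = 1) (b : ℕ) (Λ : PowerSeries ℤ)
    (hΛ : IsProduct k P Λ) (U V : ℤ[X]) (hV : V.coeff 0 = 1)
    (hUV : Λ * (V : PowerSeries ℤ) = (U : PowerSeries ℤ))
    (hU : ∀ x : ℂ, aeval x U = 0 →
      IsUnitary (Nat.card k) b x ∨ ∀ n : ℕ, 0 < n → (x ^ n).im ≠ 0)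
    (T : Finset (Place k K))
    (hT : ∀ v ∈ T, ∀ x : ℂ, aeval x (P v) = 0 → ∀ n : ℕ, 0 < n → (x ^ n).im ≠ 0) :
    ∃ D : Set ℕ, PositiveDensity D ∧ ∀ (ℓ : ℕ) [Fact ℓ.Prime], ℓ ∈ D →
      ∀ (k' K' k'' L : Type) [Field k'] [Finite k'] [Field K'] [Algebra k' K'] [Algebra k k']
        [Algebra k K'] [Algebra K K'] [IsScalarTower k K K'] [IsScalarTower k k' K'] [Field k'']
        [Finite k''] [Field L] [Algebra k'' L] [Algebra k' k''] [Algebra k' L] [Algebra K' L]
        [IsScalarTower k' K' L] [IsScalarTower k' k'' L] (P'' : Place k'' L → ℤ[X]),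
        IsTower k' K' k'' L ℓ T P P'' → ∀ R : ℤ[X], IsProduct k'' P'' (R : PowerSeries ℤ) →
          (∀ (κ M : Type) [Field κ] [Finite κ] [Field M] [Algebra κ M]
            [Algebra k'' κ] [Algebra k'' M] [Algebra L M] [IsScalarTower k'' L M]
            [IsScalarTower k'' κ M] (P₃ : Place κ M → ℤ[X]),
            IsConstantExtension κ M P'' P₃ →
            ∀ R₃ : ℤ[X], IsProduct κ P₃ (R₃ : PowerSeries ℤ) →
              geometricOrder (Nat.card κ) b R₃ = geometricOrder (Nat.card k'') b R ∧
              order (Nat.card κ) b R₃ ≤ geometricOrder (Nat.card k'') b R ∧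
              (geometricOrder (Nat.card k) b U = 0 →
                ∀ x : ℂ, IsUnitary (Nat.card κ) b x → aeval x R₃ ≠ 0)) ∧
          finrank k' k'' * geometricOrder (Nat.card k'') b R ≤
            finrank K' L * geometricOrder (Nat.card k) b U := by
  classical
  have i0 : FF.IsFF k K := ⟨hK.essFiniteType, hK.trdeg_eq_one⟩
  have hdK : ∀ v : Place k K, v.deg ≠ 0 := fun v => (Pool.Agent.H525R3.FFp.deg_pos v).ne'
  have hconv : ∀ (k K : Type) [Field k] [Finite k] [Field K] [Algebra k K], IsCurveField k K →
      ∀ (P : Place k K → ℤ[X]) (Λ : PowerSeries ℤ), IsProduct k P Λ →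
      Λ * eulerProd (fun v : Place k K => v.deg)
        (fun v => Pool.Agent.Y701.PE.sub v.deg (P v : PowerSeries ℤ)) = 1 := by
    intro k K _ _ _ _ hK P Λ h
    have i0 : FF.IsFF k K := ⟨hK.essFiniteType, hK.trdeg_eq_one⟩
    unfold IsProduct at h
    simp only [S.deg_eq] at h
    rw [← h]
    congr 2
    funext v
    exact Pool.Agent.Y701.PE.sub_poly (Pool.Agent.H525R3.FFp.deg_pos v).ne' (P v)
  have hΛ1 := hconv k K hK P Λ hΛ
  have hQ0 : Nat.card k ^ b ≠ 0 := pow_ne_zero b Nat.card_pos.ne'
  set E : ℤ[X] := ∏ v ∈ T, expand ℤ v.deg (P v) with hE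
  have hU0 : U.coeff 0 = 1 := by
    have h1 := congrArg PowerSeries.constantCoeff hUV
    rw [map_mul, Pool.Agent.Y701.AV.cc_euler hP hΛ1, one_mul, Pool.Agent.Y701.AV.cc_coe hV,
      ← PowerSeries.coeff_zero_eq_constantCoeff_apply, Polynomial.coeff_coe] at h1
    exact h1.symm
  have hE0 : E.coeff 0 = 1 := by
    rw [hE, coeff_zero_eq_eval_zero, eval_prod]
    refine Finset.prod_eq_one fun v _ => ?_
    rw [← coeff_zero_eq_eval_zero, Pool.Agent.Y701.PE.coeff_zero_expand
      (Nat.pos_of_ne_zero (hdK v)), hP v]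
  have hUne : U ≠ 0 := by
    rintro rfl
    rw [coeff_zero] at hU0
    exact zero_ne_one hU0
  have hEne : E ≠ 0 := by
    intro h
    rw [h, coeff_zero] at hE0
    exact zero_ne_one hE0
  have hEim : ∀ x : ℂ, aeval x E = 0 → ∀ n : ℕ, 0 < n → (x ^ n).im ≠ 0 := by
    intro x h0 n hn him
    rw [hE, map_prod, Finset.prod_eq_zero_iff] at h0
    obtain ⟨v, hv, h1⟩ := h0
    rw [expand_aeval] at h1
    apply hT v hv _ h1 n hn
    rw [← pow_mul, mul_comm, pow_mul]
    exact im_pow him _
  have huni : ∀ x : ℂ, H313.GE.IsUni (Nat.card k ^ b) x → ∃ n : ℕ, 0 < n ∧ (x ^ n).im = 0 := by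
    rintro x ⟨n, hn, hx⟩
    refine ⟨n, hn, ?_⟩
    rw [mul_pow] at hx
    have h1 : ((Nat.card k ^ b : ℕ) : ℂ) ^ n ≠ 0 := pow_ne_zero n (by exact_mod_cast hQ0)
    have h2 : x ^ n = ((((Nat.card k ^ b : ℕ) : ℝ) ^ n)⁻¹ : ℝ) := by
      push_cast at hx h1 ⊢
      exact eq_inv_of_mul_eq_one_right hx
    rw [h2, Complex.ofReal_im]
  have hgE : H313.GE.geo (Nat.card k ^ b) E = 0 := by
    apply H313.GE.geo_eq_zero
    intro x hx h0
    obtain ⟨n, hn, h1⟩ := huni x hx
    exact hEim x h0 n hn h1
  obtain ⟨t, B, ht, hB, hBno, hBu, hgt⟩ := H313.GE.exists_decomp hQ0 _ (U * E) le_rfl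
    (by rw [mul_coeff_zero, hU0, hE0, one_mul]; exact isUnit_one)
  set M₀ : ℕ := (2 * (H313.GE.cprod ℤ (Nat.card k ^ b) t * B).natDegree).factorial with hM₀
  have hM₀0 : M₀ ≠ 0 := Nat.factorial_ne_zero _
  have hBim : ∀ x : ℂ, aeval x B = 0 → (x ^ M₀).im ≠ 0 := by
    intro x hx
    have h1 : aeval x (U * E) = 0 := by
      rw [hB, map_mul, hx, mul_zero]
    rw [map_mul] at h1
    rcases mul_eq_zero.1 h1 with h2 | h2
    · rcases hU x h2 with h3 | h3
      · exact absurd hx (hBno x ((isUnitary_iff _ _ x).1 h3))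
      · exact h3 M₀ (Nat.pos_of_ne_zero hM₀0)
    · exact hEim x h2 M₀ (Nat.pos_of_ne_zero hM₀0)
  obtain ⟨G, hG, hdens⟩ := H313.GE.exists_dens hBu hM₀0 hBim (Nat.card k)
  have hfin : {ℓ : ℕ | ℓ.Prime ∧ (ℓ : k) = 0}.Finite := by
    apply (Set.finite_Iic (Nat.card k)).subset
    rintro ℓ ⟨hℓ, h0⟩
    have : Fact ℓ.Prime := ⟨hℓ⟩
    by_contra hlt
    rw [Set.mem_Iic, not_le] at hlt
    have hcop : Nat.Coprime ℓ (Nat.card k) :=
      (Nat.Prime.coprime_iff_not_dvd hℓ).2 fun h => by
        have := Nat.le_of_dvd Nat.card_pos h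
        omega
    obtain ⟨u, v, huv⟩ := Nat.isCoprime_iff_coprime.2 hcop
    have h1 := congrArg (Int.cast (R := k)) huv
    push_cast at h1
    have : Fintype k := Fintype.ofFinite k
    have h2 : ((Nat.card k : ℕ) : k) = 0 := by
      rw [Nat.card_eq_fintype_card]
      exact FiniteField.cast_card_eq_zero k
    rw [h0, h2] at h1
    simp at h1
  refine ⟨_, hdens.diff hfin, ?_⟩
  rintro ℓ hℓ ⟨⟨h1, h2, h3, h4⟩, h5⟩ k' K' k'' L _ _ _ _ _ _ _ _ _ _ _ _ _ _ _ _ _ _ P'' htow R hR
  have hℓk : (ℓ : k) ≠ 0 := fun h => h5 ⟨h1, h⟩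
  have hRe := hconv k'' L htow.curveTop P'' _ hR
  have hmain : finrank k' k'' * geometricOrder (Nat.card k'') b R ≤
      finrank K' L * geometricOrder (Nat.card k) b U := by
    have h6 := H313.GE.tower_le hK htow.curve htow.curveTop htow.constants hP htow.constant T
      (fun v v' w e e' f hv h h' hc => htow.factor v v' w e e' f hv h h' hc) hΛ1 hV hUV hRe hℓk
      htow.degree htow.galois htow.power
      (fun v' w e h he => htow.ramification v' w e h he) b hB hBu
      (fun m hm hle => H313.GE.dvd_factorial_of_totient hm hle) hG h4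
    rw [← hgt, H313.GE.geo_mul _ hUne hEne, hgE, add_zero] at h6
    rw [geometricOrder_eq, geometricOrder_eq]
    exact h6
  refine ⟨?_, hmain⟩
  intro κ M _ _ _ _ _ _ _ _ _ P₃ hcon R₃ hR₃
  have hRe'' := hconv κ M hcon.curve P₃ _ hR₃
  have h2 := H313.GE.const_geo htow.curveTop hcon.curve hcon.constants htow.constant hcon.constant
    (fun w u e f h hc => hcon.factor w u e f h hc) hRe hRe'' (Nat.card k'' ^ b)
  have h3 : (Nat.card k'' ^ b) ^ finrank k'' κ = Nat.card κ ^ b := by
    have : Module.Finite k'' κ := Module.Finite.of_finite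
    rw [Module.natCard_eq_pow_finrank (K := k'') (V := κ), ← pow_mul, ← pow_mul, mul_comm]
  rw [h3] at h2
  have hRne : R₃ ≠ 0 := by
    rintro rfl
    rw [Polynomial.coe_zero, zero_mul] at hRe''
    exact zero_ne_one hRe''
  have h4 : geometricOrder (Nat.card κ) b R₃ = geometricOrder (Nat.card k'') b R := by
    rw [geometricOrder_eq, geometricOrder_eq, h2]
  refine ⟨h4, ?_, ?_⟩
  · rw [← h4, geometricOrder_eq]
    have h5 := H313.GE.order_le_geo (pow_ne_zero b (Nat.card_pos (α := κ)).ne') hRne
    unfold order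
    push_cast at h5
    exact h5
  · intro h0 x hx h6
    rw [h0, mul_zero] at hmain
    have : Module.Finite k' k'' := Module.Finite.of_finite
    have h7 : geometricOrder (Nat.card k'') b R = 0 :=
      (Nat.mul_eq_zero.1 (Nat.le_zero.1 hmain)).resolve_left finrank_pos.ne'
    rw [← h4, geometricOrder_eq] at h7
    have h8 := H313.GE.geo_pos hRne ((isUnitary_iff _ _ x).1 hx) h6
    omega

end Pool.Agent.Results.MP_ae0bd0_nt.GeometricOrdersLGroups
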