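import Pool.Agent.X231.BT.Two

/-!
The order of vanishing at `s = 1` of the L-functions of the elliptic curves `P(t) y ^ 2 = f(x) - t`
over `k(t)` and over its constant field extensions, for the primes `P` of a given degree.
-/

set_option autoImplicit false
set_option maxHeartbeats 1000000

open Polynomial

namespace Pool.Agent.Results.MP_ae0bd0_nt.PrimeTwistsConstantExtensions

/-- The closed points of the affine line over the field `F`: monic irreducible polynomials. -/
abbrev ClosedPt (F : Type) [Field F] : Type := {P : F[X] // P.Monic ∧ Irreducible P}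

section generic

variable {F : Type} [Field F]

open Classical in
/-- The quadratic character of the field `F[x] / (Q)` at the class of `h`. -/
noncomputable def quadChar (h Q : F[X]) : ℤ :=
  if Q ∣ h then 0 else if ∃ s : F[X], Q ∣ h - s ^ 2 then 1 else -1

/-- The degree of the closed point `Q` of the line over a field `F` of degree `d`. -/
noncomputable def ptDegree (d : ℕ) (Q : ClosedPt F) : ℕ := d * Q.1.natDegree

/-- The Euler factor `1 - χ T ^ n`, where `χ` is the value of the quadratic character of the residue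
field of `Q` at `h`, and `n` is the degree of `Q`. -/
noncomputable def ptFactor (h : F[X]) (d : ℕ) (Q : ClosedPt F) : PowerSeries ℤ :=
  1 - PowerSeries.C (quadChar h Q.1) * PowerSeries.X ^ ptDegree d Q

end generic

/-- The Euler product: its coefficient of index `n` is that of the product of the factors of degree
at most `n`. -/
noncomputable def eulerProduct {ι : Type} (d : ι → ℕ) (f : ι → PowerSeries ℤ) : PowerSeries ℤ :=
  PowerSeries.mk fun n => PowerSeries.coeff n (∏ᶠ (i : ι) (_ : d i ≤ n), f i)

section defs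

variable {k : Type} [Field k]

/-- The residue field of the closed point `P` of the `t`-line. -/
def Res (P : ClosedPt k) : Type := AdjoinRoot P.1

noncomputable instance resField (P : ClosedPt k) : Field (Res P) :=
  @AdjoinRoot.instField k _ P.1 ⟨P.2.2⟩

/-- The value at `P` of a polynomial in `t`. -/
noncomputable def value (P : ClosedPt k) (g : k[X]) : Res P := AdjoinRoot.mk P.1 g

/-- The inclusion of the constants in the residue field. -/
noncomputable def constants (P : ClosedPt k) : k →+* Res P := AdjoinRoot.of P.1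

/-- The polynomial `D(t) (f(x) - t)` in `x` over the residue field of the closed point `P`. -/
noncomputable def fibre (f D : k[X]) (P : ClosedPt k) : (Res P)[X] :=
  C (value P D) * (f.map (constants P) - C (value P X))

/-- The closed points of the `(t, x)`-plane with `D(t) ≠ 0`: a closed point of the `t`-line and a
closed point of the `x`-line over its residue field. -/
structure PlanePt (D : k[X]) : Type where
  place : ClosedPt k
  ndvd : ¬ place.1 ∣ D
  point : ClosedPt (Res place)

/-- The degree of a closed point of the plane. -/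
noncomputable def PlanePt.deg {D : k[X]} (z : PlanePt D) : ℕ :=
  ptDegree z.place.1.natDegree z.point

/-- The Euler factor of a closed point of the plane. -/
noncomputable def PlanePt.factor {D : k[X]} (f : k[X]) (z : PlanePt D) : PowerSeries ℤ :=
  ptFactor (fibre f D z.place) z.place.1.natDegree z.point

/-- The `L`-function in the variable `T = q ^ (-s)` of the elliptic curve `D(t) y ^ 2 = f(x) - t`
over `k(t)`, for a cubic polynomial `f` and a squarefree polynomial `D`: the product of
`1 - χ(z) T ^ deg z` over the closed points `z` of the plane with `D(t) ≠ 0`, where `χ(z)` is the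
quadratic character of the residue field of `z` at `D(t) (f(x) - t)`. -/
noncomputable def Lfun (f D : k[X]) : PowerSeries ℤ :=
  eulerProduct (fun z : PlanePt D => z.deg) (fun z => z.factor f)

/-- `L(T) = (1 - q T) ^ m G(T)` with an integral polynomial `G`: the function vanishes to order at
least `m` at `s = 1`. -/
def VanishesTo (f D : k[X]) (m : ℕ) : Prop :=
  ∃ G : ℤ[X], Lfun f D = (((1 - C (Nat.card k : ℤ) * X) ^ m * G : ℤ[X]) : PowerSeries ℤ)

/-- The order of vanishing at `s = 1`. -/
noncomputable def order (f D : k[X]) : ℕ := sSup {m : ℕ | VanishesTo f D m}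

/-- The `L`-function of `D(t) y ^ 2 = f(x) - t` over `k'(t)` does not vanish at `s = 1`, for all
finite extensions `k'` of `k` of degree prime to three. -/
def NonvanishingOverConstants (f D : k[X]) : Prop :=
  ∀ (k' : Type) [Field k'] [Finite k'] [Algebra k k'], Nat.Coprime 3 (Module.finrank k k') →
    ∀ m : ℕ, VanishesTo (f.map (algebraMap k k')) (D.map (algebraMap k k')) m → m = 0

/-- The characteristic of `k` is not two or three, `f` is a monic cubic polynomial and it is not of the
form `(x - a) ^ 3 + b`. -/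
structure IsCubicBase (f : k[X]) : Prop where
  two_ne : (2 : k) ≠ 0
  three_ne : (3 : k) ≠ 0
  monic : f.Monic
  degree : f.natDegree = 3
  generic : f.coeff 2 ^ 2 ≠ 3 * f.coeff 1

/-- The greatest power of two dividing `n`. -/
def twoPart (n : ℕ) : ℕ := 2 ^ padicValNat 2 n

/-- The primes of degree `N`. -/
def primesOf (k : Type) [Field k] (N : ℕ) : Set (ClosedPt k) := {P | P.1.natDegree = N}

/-- the equivalence of the two descriptions of the points of the plane -/
noncomputable def planeEquiv (D : k[X]) :
    (Σ P : {P : Pool.Agent.W313.Hyp.MI k // ¬ P.1 ∣ D},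
      Pool.Agent.W313.Hyp.MI (Pool.Agent.TH943.HJ.RF P.1)) ≃ PlanePt D where
  toFun z := ⟨z.1.1, z.1.2, z.2⟩
  invFun z := ⟨⟨z.place, z.ndvd⟩, z.point⟩
  left_inv _ := rfl
  right_inv _ := rfl

theorem Lfun_eq (f D : k[X]) : Lfun f D = Pool.Agent.TH943.HJ.LF f D := by
  unfold Lfun Pool.Agent.TH943.HJ.LF eulerProduct Pool.Agent.W343.BSD.eulerProd
  ext n
  rw [PowerSeries.coeff_mk, PowerSeries.coeff_mk]
  congr 1
  exact (finprod_comp_equiv (planeEquiv D)
    (f := fun z : PlanePt D => ∏ᶠ (_ : z.deg ≤ n), z.factor f)).symm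

end defs

section bounds

variable {k : Type} [Field k] [Finite k]

theorem nonvanishing_of_inert {f : k[X]} (hf : IsCubicBase f) {D : k[X]} (hD : D ≠ 0)
    (h : ∀ P : k[X], P.Monic → Irreducible P → P ∣ D → Irreducible (P.comp f)) :
    NonvanishingOverConstants f D := by
  intro k' _ _ _ hr m hm
  obtain ⟨G, hG⟩ := hm
  rw [Lfun_eq] at hG
  have hinj := (algebraMap k k').injective
  have h2 : (2 : k') ≠ 0 := by
    intro h
    apply hf.two_ne
    apply hinj
    rw [map_ofNat, map_zero]
    exact h
  refine Pool.Agent.TH943.HJ.upper_zero h2 (hf.monic.map _) ?_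
    ((Polynomial.map_ne_zero_iff hinj).2 hD) ?_ m G hG
  · rw [hf.monic.natDegree_map, hf.degree]
    decide
  · refine Pool.Agent.X231.BT.inert_all hf.monic (by rw [hf.degree]; norm_num) hD
      (by rw [hf.degree]; exact hr) fun P hP => ?_
    obtain ⟨h3, h4, h5⟩ := (Pool.Agent.TH943.HJ.mem_primes hD P).1 hP
    exact h P h3 h4 h5

open Classical in
theorem pair_bound {f : k[X]} (hf : IsCubicBase f) (P : ClosedPt k) {ε : k} (hε : ¬ IsSquare ε)
    {m m' : ℕ} (hm : VanishesTo f P.1 m) (hm' : VanishesTo f (C ε * P.1) m') :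
    m + m' ≤ if Irreducible (P.1.comp f) then 0 else
      2 * twoPart P.1.natDegree := by
  obtain ⟨G, hG⟩ := hm
  obtain ⟨G', hG'⟩ := hm'
  rw [Lfun_eq] at hG hG'
  have h1 := Pool.Agent.X231.BT.order_le hf.two_ne hf.monic (by rw [hf.degree]; decide)
    P.2.1.ne_zero hε m m' G G' hG hG'
  rw [Pool.Agent.TH943.HJ.primes_of_irreducible P.2.1 P.2.2, hf.degree, Finset.filter_singleton]
    at h1
  split_ifs with h
  · rw [if_neg (not_not.2 h), Finset.sum_empty, mul_zero] at h1
    exact h1
  · rw [if_pos h, Finset.sum_singleton] at h1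
    exact h1

theorem twist_back {f : k[X]} (hf : IsCubicBase f) (D : k[X]) {ε : k} (hε : ¬ IsSquare ε) :
    (∃ m, VanishesTo f D m) ↔ ∃ m, VanishesTo f (C ε * D) m := by
  have key : ∀ F : ℤ[X], PowerSeries.rescale (-1 : ℤ) (F : PowerSeries ℤ) =
      ((F.comp (C (-1) * X) : ℤ[X]) : PowerSeries ℤ) := by
    intro F
    ext n
    rw [PowerSeries.coeff_rescale, Polynomial.coeff_coe, Polynomial.coeff_coe,
      Polynomial.comp_C_mul_X_coeff, mul_comm]
  have h1 := Pool.Agent.X231.BT.LF_twist hf.two_ne hε f D
  constructor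
  · rintro ⟨m, G, hG⟩
    refine ⟨0, ((1 - C (Nat.card k : ℤ) * X) ^ m * G).comp (C (-1) * X), ?_⟩
    rw [pow_zero, one_mul, ← key, ← hG, Lfun_eq, Lfun_eq, h1]
  · rintro ⟨m, G, hG⟩
    refine ⟨0, ((1 - C (Nat.card k : ℤ) * X) ^ m * G).comp (C (-1) * X), ?_⟩
    rw [pow_zero, one_mul, ← key, ← hG, Lfun_eq, Lfun_eq, h1, PowerSeries.rescale_rescale,
      mul_neg, mul_one, neg_neg, PowerSeries.rescale_one, RingHom.id_apply]

open Classical in
theorem order_pair {f : k[X]} (hf : IsCubicBase f) (P : ClosedPt k) {ε : k} (hε : ¬ IsSquare ε) :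
    order f P.1 + order f (C ε * P.1) ≤ if Irreducible (P.1.comp f) then 0 else
      2 * twoPart P.1.natDegree := by
  set B := if Irreducible (P.1.comp f) then 0 else 2 * twoPart P.1.natDegree with hB
  unfold order
  by_cases h : ∃ m, VanishesTo f P.1 m
  · have h' := (twist_back hf P.1 hε).1 h
    obtain ⟨m0, hm0⟩ := h
    obtain ⟨m0', hm0'⟩ := h'
    have hb : BddAbove {m : ℕ | VanishesTo f P.1 m} :=
      ⟨B, fun m hm => le_trans (Nat.le_add_right _ _) (pair_bound hf P hε hm hm0')⟩
    have hb' : BddAbove {m : ℕ | VanishesTo f (C ε * P.1) m} :=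
      ⟨B, fun m hm => le_trans (Nat.le_add_left _ _) (pair_bound hf P hε hm0 hm)⟩
    exact pair_bound hf P hε (Nat.sSup_mem ⟨m0, hm0⟩ hb) (Nat.sSup_mem ⟨m0', hm0'⟩ hb')
  · have h' : ¬ ∃ m, VanishesTo f (C ε * P.1) m := fun h1 => h ((twist_back hf P.1 hε).2 h1)
    have e1 : {m : ℕ | VanishesTo f P.1 m} = ∅ :=
      Set.eq_empty_iff_forall_notMem.2 fun m hm => h ⟨m, hm⟩
    have e2 : {m : ℕ | VanishesTo f (C ε * P.1) m} = ∅ :=
      Set.eq_empty_iff_forall_notMem.2 fun m hm => h' ⟨m, hm⟩
    rw [e1, e2, csSup_empty]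
    exact Nat.zero_le _

end bounds

section count

variable {k : Type} [Field k] [Finite k]

theorem primesOf_finite (N : ℕ) : (primesOf k N).Finite :=
  (Pool.Agent.W313.Hyp.finite_deg_le (F := k) N).subset fun P (hP : P.1.natDegree = N) => hP.le

theorem card_primes_le {N : ℕ} (hN : 0 < N) : N * (primesOf k N).ncard ≤ Nat.card k ^ N := by
  classical
  have hfin := primesOf_finite (k := k) N
  have hne : (X ^ Nat.card k ^ N - X : k[X]) ≠ 0 :=
    FiniteField.X_pow_card_pow_sub_X_ne_zero _ hN.ne' Finite.one_lt_card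
  have h1 : (∏ P ∈ hfin.toFinset, P.1) ∣ (X ^ Nat.card k ^ N - X : k[X]) := by
    apply Finset.prod_dvd_of_coprime
    · intro R _ R' _ hn
      refine (Irreducible.coprime_iff_not_dvd R.2.2).2 fun hd => hn ?_
      exact Subtype.ext (eq_of_monic_of_associated R.2.1 R'.2.1
        (R.2.2.associated_of_dvd R'.2.2 hd))
    · intro R hR
      have h2 : R.1.natDegree = N := hfin.mem_toFinset.1 hR
      exact (R.2.2.natDegree_dvd_iff_dvd_X_pow_card_pow_sub_X (n := N)).1 h2.dvd
  have h2 := natDegree_le_of_dvd h1 hne
  rw [natDegree_prod_of_monic _ _ (fun R _ => R.2.1),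
    FiniteField.X_pow_card_pow_sub_X_natDegree_eq _ hN.ne' Finite.one_lt_card] at h2
  rw [Finset.sum_congr rfl (fun P hP => hfin.mem_toFinset.1 hP), Finset.sum_const, smul_eq_mul] at h2
  rw [Set.ncard_eq_toFinset_card _ hfin, mul_comm]
  exact h2

theorem three_le_card (h2 : (2 : k) ≠ 0) : 3 ≤ Nat.card k := by
  have h1 : 1 < Nat.card k := Finite.one_lt_card
  have h3 : ((Nat.card k : ℕ) : ZMod 2) = 1 := Pool.Agent.W343.BSD.card_odd h2
  rcases Nat.lt_or_ge (Nat.card k) 3 with h | h
  · exfalso
    have h4 : Nat.card k = 2 := by omega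
    rw [h4] at h3
    exact absurd h3 (by decide)
  · exact h

theorem geom_bound {q : ℕ} (hq : 3 ≤ q) (m : ℕ) :
    2 * ∑ i ∈ Finset.Icc 1 m, q ^ i ≤ 3 * q ^ m := by
  induction m with
  | zero => simp
  | succ m ih =>
    rw [Finset.sum_Icc_succ_top (by omega), mul_add, pow_succ]
    have h1 : 3 * q ^ m ≤ q ^ m * q := by
      rw [mul_comm]
      exact Nat.mul_le_mul_left _ hq
    nlinarith

theorem divisor_bound {q : ℕ} (hq : 3 ≤ q) (N : ℕ) :
    3 * ∑ d ∈ N.properDivisors, q ^ d + 1 ≤ 6 * q ^ (N / 2) := by
  have h1 : ∑ d ∈ N.properDivisors, q ^ d ≤ ∑ i ∈ Finset.Icc 1 (N / 2), q ^ i := by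
    refine Finset.sum_le_sum_of_subset fun d hd => ?_
    rw [Nat.mem_properDivisors] at hd
    rw [Finset.mem_Icc]
    obtain ⟨⟨c, hc⟩, hlt⟩ := hd
    have hd0 : 0 < d := by
      rcases Nat.eq_zero_or_pos d with h | h
      · rw [h, zero_mul] at hc
        omega
      · exact h
    have hc2 : 2 ≤ c := by
      rcases Nat.lt_or_ge c 2 with h | h
      · exfalso
        have : c ≤ 1 := by omega
        have h3 : d * c ≤ d * 1 := Nat.mul_le_mul_left _ this
        omega
      · exact h
    refine ⟨hd0, ?_⟩
    rw [Nat.le_div_iff_mul_le (by norm_num), hc]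
    exact Nat.mul_le_mul_left _ hc2
  have h2 := geom_bound hq (N / 2)
  have h3 : 1 ≤ q ^ (N / 2) := Nat.one_le_pow _ _ (by omega)
  omega

/-- the inert primes -/
def inertOf (f : k[X]) (N : ℕ) : Set (ClosedPt k) :=
  {P | P.1.natDegree = N ∧ Irreducible (P.1.comp f)}

theorem inert_lower {f : k[X]} (hf : IsCubicBase f) {N : ℕ} (hN : 0 < N) :
    Nat.card k ^ N ≤ 3 * (N * (inertOf f N).ncard) + 6 * Nat.card k ^ (N / 2) := by
  have h1 := Pool.Agent.TH943.PT.inert_count hf.two_ne hf.three_ne hf.monic hf.degree hf.generic hN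
  have h2 := (abs_le.1 h1).1
  have h3 := divisor_bound (three_le_card hf.two_ne) N
  have h4 : (3 * ∑ d ∈ N.properDivisors, (Nat.card k : ℤ) ^ d + 1 : ℤ) ≤
      6 * (Nat.card k : ℤ) ^ (N / 2) := by
    exact_mod_cast h3
  have h5 : ((Nat.card k ^ N : ℕ) : ℤ) ≤
      ((3 * (N * (inertOf f N).ncard) + 6 * Nat.card k ^ (N / 2) : ℕ) : ℤ) := by
    push_cast
    push_cast at h2
    unfold inertOf ClosedPt
    linarith
  exact_mod_cast h5

omit [Finite k] in
theorem inert_subset (f : k[X]) (N : ℕ) : inertOf f N ⊆ primesOf k N := fun _ hP => hP.1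

open Classical in
theorem sum_orders {f : k[X]} (hf : IsCubicBase f) {ε : k} (hε : ¬ IsSquare ε) (N : ℕ) :
    ∑ᶠ P ∈ primesOf k N, (order f P.1 + order f (C ε * P.1)) ≤
      2 * twoPart N * ((primesOf k N).ncard - (inertOf f N).ncard) := by
  have hfin := primesOf_finite (k := k) N
  have hfin2 : (inertOf f N).Finite := hfin.subset (inert_subset f N)
  rw [finsum_mem_eq_finite_toFinset_sum _ hfin]
  have h1 : ∑ P ∈ hfin.toFinset, (order f P.1 + order f (C ε * P.1)) ≤
      ∑ P ∈ hfin.toFinset, if Irreducible (P.1.comp f) then 0 else 2 * twoPart N := by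
    refine Finset.sum_le_sum fun P hP => ?_
    have h2 : P.1.natDegree = N := hfin.mem_toFinset.1 hP
    have h3 := order_pair hf P hε
    rw [h2] at h3
    exact h3
  refine h1.trans ?_
  rw [Finset.sum_ite, Finset.sum_const_zero, zero_add, Finset.sum_const, smul_eq_mul, mul_comm]
  apply Nat.mul_le_mul_left
  have h4 : (hfin.toFinset.filter fun P => ¬ Irreducible (P.1.comp f)) =
      (hfin.toFinset \ hfin2.toFinset) := by
    ext P
    rw [Finset.mem_filter, Finset.mem_sdiff, hfin.mem_toFinset, hfin2.mem_toFinset]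
    constructor
    · rintro ⟨h5, h6⟩
      exact ⟨h5, fun h7 => h6 h7.2⟩
    · rintro ⟨h5, h6⟩
      exact ⟨h5, fun h7 => h6 ⟨h5, h7⟩⟩
  rw [h4, Finset.card_sdiff_of_subset (by
    intro P hP
    rw [hfin2.mem_toFinset] at hP
    rw [hfin.mem_toFinset]
    exact hP.1), Set.ncard_eq_toFinset_card _ hfin, Set.ncard_eq_toFinset_card _ hfin2]

end count

/-- **One third of the prime twists of `y ^ 2 = f(x) - t` have order zero over all constant
extensions of degree prime to three.**

Let `k` be a finite field with `q` elements, of characteristic not two or three, and `f` a monic cubic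
polynomial over `k`, not of the form `(x - a) ^ 3 + b`. For a squarefree polynomial `D` let `E_D` be the
elliptic curve `D(t) y ^ 2 = f(x) - t` over `k(t)`. It has additive reduction at the places dividing
`D` and at infinity, and at the other places the Euler factor is the product of the factors of the
closed points of the fibre of the plane, so that `Lfun` is `L(E_D, s)`, where `T = q ^ (-s)`. It is a
polynomial in `T` if `D` is not constant.

1. If `P(f(x))` is irreducible for all the prime factors `P` of `D`, then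
`L(E_D / k'(t), s)` does not vanish at `s = 1` for all finite extensions `k'` of `k` of degree prime to
three. By Tate's inequality the rank of `E_D(k'(t))` is then zero, equal to the order of vanishing.

2. For every `N` at least a third of the `π(N)` primes `P` of degree `N`, up to `2 q ^ (N / 2) / N` of
them, are such that `L(E_P / k'(t), s)` does not vanish at `s = 1` for all finite extensions `k'` of `k`
of degree prime to three.

3. Let `ε` in `k` be no square. For every prime `P` of degree `N` the orders of vanishing at `s = 1` of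
the two twists `E_P` and `E_{εP}` have a sum which is at most `2 * 2 ^ v(N)`, where `v` is the `2`-adic
valuation, and the sum of these `2 π(N)` orders over the primes of degree `N` is at most
`2 ^ v(N) (4 / 3 π(N) + 4 q ^ (N / 2) / N)`. So the mean order of the twists by `P` and `εP`, for the
primes `P` of odd degree `N`, is at most `2 / 3 + o(1)`. -/
theorem result (k : Type) [Field k] [Finite k] (f : k[X]) (hf : IsCubicBase f) :
    (∀ D : k[X], Squarefree D →
      (∀ P : k[X], P.Monic → Irreducible P → P ∣ D → Irreducible (P.comp f)) →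
        NonvanishingOverConstants f D) ∧
    (∀ N : ℕ, 0 < N → N * (primesOf k N).ncard ≤
      3 * (N * {P ∈ primesOf k N | NonvanishingOverConstants f P.1}.ncard) +
        6 * Nat.card k ^ (N / 2)) ∧
    ∀ ε : k, ¬ IsSquare ε →
      (∀ P : ClosedPt k, ∀ m m' : ℕ, VanishesTo f P.1 m → VanishesTo f (C ε * P.1) m' →
        m + m' ≤ 2 * twoPart P.1.natDegree) ∧
      ∀ N : ℕ, 0 < N →
        3 * (N * ∑ᶠ P ∈ primesOf k N, (order f P.1 + order f (C ε * P.1))) ≤
          2 * twoPart N * (2 * (N * (primesOf k N).ncard) + 6 * Nat.card k ^ (N / 2)) := by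
  classical
  refine ⟨fun D hD h => nonvanishing_of_inert hf hD.ne_zero h, fun N hN => ?_, fun ε hε =>
    ⟨fun P m m' hm hm' => ?_, fun N hN => ?_⟩⟩
  · have h1 := card_primes_le (k := k) hN
    have h2 := inert_lower hf hN
    have h3 : (inertOf f N).ncard ≤
        {P ∈ primesOf k N | NonvanishingOverConstants f P.1}.ncard := by
      apply Set.ncard_le_ncard
      · rintro P ⟨h4, h5⟩
        refine ⟨h4, nonvanishing_of_inert hf P.2.1.ne_zero fun Q hQm hQi hQd => ?_⟩
        rw [eq_of_monic_of_associated hQm P.2.1 (hQi.associated_of_dvd P.2.2 hQd)]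
        exact h5
      · exact (primesOf_finite N).subset fun P hP => hP.1
    have h6 := Nat.mul_le_mul_left N h3
    omega
  · have h1 := pair_bound hf P hε hm hm'
    split_ifs at h1 with h
    · exact h1.trans (Nat.zero_le _)
    · exact h1
  · have h1 := card_primes_le (k := k) hN
    have h2 := inert_lower hf hN
    have h3 := sum_orders hf hε N
    have h4 : (inertOf f N).ncard ≤ (primesOf k N).ncard :=
      Set.ncard_le_ncard (inert_subset f N) (primesOf_finite N)
    obtain ⟨e, he⟩ : ∃ e, (primesOf k N).ncard = (inertOf f N).ncard + e :=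
      ⟨_, (Nat.add_sub_of_le h4).symm⟩
    rw [he] at h1 h3 ⊢
    rw [Nat.add_sub_cancel_left] at h3
    set a := (inertOf f N).ncard with ha
    set S := ∑ᶠ P ∈ primesOf k N, (order f P.1 + order f (C ε * P.1)) with hS
    calc 3 * (N * S) ≤ 3 * (N * (2 * twoPart N * e)) :=
          Nat.mul_le_mul_left _ (Nat.mul_le_mul_left _ h3)
      _ = 2 * twoPart N * (3 * (N * e)) := by ring
      _ ≤ _ := by
        apply Nat.mul_le_mul_left
        have h5 : N * (a + e) = N * a + N * e := by ring
        rw [h5] at h1 ⊢
        omega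

end Pool.Agent.Results.MP_ae0bd0_nt.PrimeTwistsConstantExtensions
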